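import Pool.Agent.helper16.PU.Spec2

set_option autoImplicit false

namespace Pool.Agent.PU

open Matrix Polynomial Pool.Agent.GO Pool.Agent.AR Pool.Agent.RG Pool.Agent.HZ Pool.Agent.DS
  Pool.Agent.AX Pool.Agent.UM NumberField

section
variable {Γ F κ : Type} [Group Γ] [NormedField F] [IsUltrametricDist F] [Field κ]
  {ρ : Γ →* Matrix (Fin 2) (Fin 2) F} {red : F → κ}

omit [IsUltrametricDist F] in
lemma SHF_ne {c : F} (hc : ‖c‖ = 1) : c ≠ 0 := by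
  intro h0
  rw [h0, norm_zero] at hc
  exact zero_ne_one hc

lemma SHF_stable (h : IsRed red) {d : ℝ} {π : F} (hd0 : 0 < d) (hπ : ‖π‖ = d)
    (hρ1 : ∀ g a b, ‖ρ g a b‖ ≤ 1) {S : Γ →* Matrix (Fin 2) (Fin 2) κ}
    (hS : ∀ g, S g = (ρ g).map red) (Z : Subgroup Γ) (hZ : Z.Normal)
    {γ γ' m m' : Matrix (Fin 2) (Fin 2) κ} (h1 : γ * γ' = 1) (h2 : γ' * γ = 1) (hm : m * m' = 1)
    (z : Γ) (c : κ) (hc : S z = c • (γ * m * γ')) (X : Matrix (Fin 2) (Fin 2) κ)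
    (hX : ∃ x ∈ Z, LFT_LT ρ red d π x (γ * X * γ')) :
    ∃ x ∈ Z, LFT_LT ρ red d π x (γ * (m * X * m') * γ') := by
  obtain ⟨x, hxZ, hx⟩ := hX
  have hc0 : c ≠ 0 := by
    intro h0
    have h3 := hom_mul_inv' S z
    rw [hc, h0, zero_smul, Matrix.zero_mul] at h3
    have h4 := congrFun (congrFun h3 0) 0
    simp at h4
  have hinv : S z⁻¹ = c⁻¹ • (γ * m' * γ') := by
    have h3 : S z * (c⁻¹ • (γ * m' * γ')) = 1 := by
      rw [hc, Matrix.smul_mul, Matrix.mul_smul, smul_smul, mul_inv_cancel₀ hc0, one_smul]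
      calc γ * m * γ' * (γ * m' * γ') = γ * (m * (γ' * γ) * m') * γ' := by
            simp only [Matrix.mul_assoc]
        _ = 1 := by rw [h2, Matrix.mul_one, hm, Matrix.mul_one, h1]
    calc S z⁻¹ = S z⁻¹ * (S z * (c⁻¹ • (γ * m' * γ'))) := by rw [h3, Matrix.mul_one]
      _ = c⁻¹ • (γ * m' * γ') := by rw [← Matrix.mul_assoc, hom_inv_mul', Matrix.one_mul]
  refine ⟨z * x * z⁻¹, hZ.conj_mem x hxZ z, ?_⟩
  have h3 := LFT_lt_conj h hd0 hπ hρ1 hS z hx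
  have h4 : S z * (γ * X * γ') * S z⁻¹ = γ * (m * X * m') * γ' := by
    rw [hc, hinv, Matrix.mul_smul, Matrix.smul_mul, Matrix.smul_mul, smul_smul,
      inv_mul_cancel₀ hc0, one_smul]
    calc γ * m * γ' * (γ * X * γ') * (γ * m' * γ') =
          γ * (m * (γ' * γ) * X * (γ' * γ) * m') * γ' := by simp only [Matrix.mul_assoc]
        _ = γ * (m * X * m') * γ' := by rw [h2, Matrix.mul_one, Matrix.mul_one]
  rw [h4] at h3
  exact h3

lemma SHF_commut (h : IsRed red) {r s : ℝ} {π σ : F} (hr0 : 0 < r) (hr1 : r < 1) (hπ : ‖π‖ = r)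
    (hs0 : 0 < s) (hs1 : s < 1) (hσ : ‖σ‖ = s) (hρ1 : ∀ g a b, ‖ρ g a b‖ ≤ 1)
    {x z : Γ} {X Y : Matrix (Fin 2) (Fin 2) κ} (hx : LFT_LT ρ red r π x X)
    (hz : LFT_LT ρ red s σ z Y) :
    LFT_LT ρ red (r * s) (π * σ) (x * z * x⁻¹ * z⁻¹) (X * Y - Y * X) := by
  obtain ⟨tX, c, A, u, hc, hρx, hA, hX⟩ := hx
  obtain ⟨tY, c', B, u', hc', hρz, hB, hY⟩ := hz
  obtain ⟨A', ha1, ha2, ha3⟩ := LFT_inv_aux hr1 hρ1 hc hr0 hρx hA
  obtain ⟨B', hb1, hb2, hb3⟩ := LFT_inv_aux hs1 hρ1 hc' hs0 hρz hB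
  have hc0 : c ≠ 0 := SHF_ne hc
  have hc'0 : c' ≠ 0 := SHF_ne hc'
  have hAB : ∀ a b, ‖(A * B - B * A) a b‖ ≤ r * s := by
    intro a b
    rw [Matrix.sub_apply]
    refine LFT_sub (LFT_mul hr0.le hA hB a b) ?_
    rw [mul_comm r s]
    exact LFT_mul hs0.le hB hA a b
  have hUA : ∀ a b, ‖(1 + A') a b‖ ≤ 1 := by
    intro a b
    rw [Matrix.add_apply]
    exact LFT_add (LFT_one a b) ((ha3 a b).trans hr1.le)
  have hUB : ∀ a b, ‖(1 + B') a b‖ ≤ 1 := by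
    intro a b
    rw [Matrix.add_apply]
    exact LFT_add (LFT_one a b) ((hb3 a b).trans hs1.le)
  have hU : ∀ a b, ‖((1 + A') * (1 + B')) a b‖ ≤ 1 := by
    intro a b
    have := LFT_mul zero_le_one hUA hUB a b
    rwa [one_mul] at this
  refine ⟨?_, 1, (A * B - B * A) * ((1 + A') * (1 + B')), 0, norm_one, ?_, ?_, ?_⟩
  · rw [Matrix.trace_sub, Matrix.trace_mul_comm, sub_self]
  · rw [map_mul, map_mul, map_mul, hρx, hρz, ha1, hb1, one_smul]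
    have e0 : c • (1 + A) * c' • (1 + B) * c⁻¹ • (1 + A') * c'⁻¹ • (1 + B') =
        (1 + A) * (1 + B) * (1 + A') * (1 + B') := by
      simp only [Matrix.smul_mul, Matrix.mul_smul, smul_smul]
      have e : c'⁻¹ * (c⁻¹ * (c' * c)) = 1 := by
        field_simp
      rw [e, one_smul]
    have e1 : (1 + A) * (1 + B) = (1 + B) * (1 + A) + (A * B - B * A) := by noncomm_ring
    rw [e0, e1, Matrix.add_mul, Matrix.add_mul, Matrix.mul_assoc (1 + B) (1 + A) (1 + A'), ha2,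
      Matrix.mul_one, hb2, Matrix.mul_assoc (A * B - B * A)]
  · intro a b
    have := LFT_mul (mul_nonneg hr0.le hs0.le) hAB hU a b
    rwa [mul_one] at this
  · have hP : ∀ a b, ‖(π⁻¹ • A) a b‖ ≤ 1 := LFT_pi hr0 hπ (by simpa using hA)
    have hQ : ∀ a b, ‖(σ⁻¹ • B) a b‖ ≤ 1 := LFT_pi hs0 hσ (by simpa using hB)
    set P := π⁻¹ • A with hPd
    set Q := σ⁻¹ • B with hQd
    have e1 : (π * σ)⁻¹ • ((A * B - B * A) * ((1 + A') * (1 + B'))) =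
        (P * Q - Q * P) * ((1 + A') * (1 + B')) := by
      rw [← Matrix.smul_mul, hPd, hQd]
      congr 1
      simp only [Matrix.smul_mul, Matrix.mul_smul, smul_smul, smul_sub]
      rw [mul_inv, mul_comm σ⁻¹ π⁻¹]
    have hPQ : ∀ a b, ‖(P * Q) a b‖ ≤ 1 := fun a b => by
      have := LFT_mul zero_le_one hP hQ a b
      rwa [one_mul] at this
    have hQP : ∀ a b, ‖(Q * P) a b‖ ≤ 1 := fun a b => by
      have := LFT_mul zero_le_one hQ hP a b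
      rwa [one_mul] at this
    have hPQP : ∀ a b, ‖(P * Q - Q * P) a b‖ ≤ 1 := fun a b => by
      rw [Matrix.sub_apply]
      exact LFT_sub (hPQ a b) (hQP a b)
    have e2 : (P * Q - Q * P).map red = P.map red * Q.map red - Q.map red * P.map red := by
      have h1 := LFT_map_add h hPQP hQP
      rw [sub_add_cancel, LFT_map_mul h hP hQ, LFT_map_mul h hQ hP] at h1
      exact (eq_sub_of_add_eq h1.symm)
    have hsm : ∀ a b, ‖(A' + B' + A' * B') a b‖ < 1 := by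
      intro a b
      rw [Matrix.add_apply, Matrix.add_apply]
      refine LFT_add' (LFT_add' ((ha3 a b).trans_lt hr1) ((hb3 a b).trans_lt hs1)) ?_
      exact LFT_mul' (fun a b => (ha3 a b).trans_lt hr1) (fun a b => (hb3 a b).trans hs1.le) a b
    have e3 : ((1 + A') * (1 + B')).map red = 1 := by
      have h1 : (1 + A') * (1 + B') = 1 + (A' + B' + A' * B') := by noncomm_ring
      rw [h1, LFT_map_add h LFT_one (fun a b => (hsm a b).le), LFT_map_small h hsm, add_zero]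
      exact Matrix.map_one red (LFT_red_zero h) h.one
    rw [e1, LFT_map_mul h hPQP hU, e2, e3, Matrix.mul_one, zero_smul, add_zero, hX, hY]
    ext i j
    fin_cases i <;> fin_cases j <;>
      simp [Matrix.mul_apply, Fin.sum_univ_two] <;> ring

lemma SHF_two {p : ℕ} [hp : Fact p.Prime] (hp2 : p ≠ 2) [CharP κ p] : (2 : κ) ≠ 0 := by
  intro h0
  have h1 : ((2 : ℕ) : κ) = 0 := by exact_mod_cast h0
  rw [CharP.cast_eq_zero_iff κ p] at h1
  exact hp2 ((Nat.prime_dvd_prime_iff_eq hp.out Nat.prime_two).mp h1)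

lemma SHF_lead (h2κ : (2 : κ) ≠ 0) (h : IsRed red) {s : ℝ} {σ : F}
    (hs0 : 0 < s) (hs1 : s < 1) (hσ : ‖σ‖ = s) (hρ1 : ∀ g a b, ‖ρ g a b‖ ≤ 1) (g : Γ)
    (hg : nu (ρ g) = s) : ∃ X, LFT_LT ρ red s σ g X ∧ X ≠ 0 := by
  have h01 : ‖ρ g 0 1‖ ≤ s := by
    rw [← hg]
    exact (le_max_left _ _).trans (le_max_left _ _)
  have h10 : ‖ρ g 1 0‖ ≤ s := by
    rw [← hg]
    exact (le_max_right _ _).trans (le_max_left _ _)
  have hdd : ‖ρ g 0 0 - ρ g 1 1‖ ≤ s := by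
    rw [← hg]
    exact le_max_right _ _
  have hσ0 : σ ≠ 0 := by
    intro h0
    rw [h0, norm_zero] at hσ
    exact hs0.ne hσ
  have hc : ‖ρ g 0 0‖ = 1 := by
    have hdet := FIX_det ρ hρ1 g
    rw [Matrix.det_fin_two] at hdet
    have h1 : ‖ρ g 0 1 * ρ g 1 0‖ < 1 := by
      rw [norm_mul]
      calc ‖ρ g 0 1‖ * ‖ρ g 1 0‖ ≤ ‖ρ g 0 1‖ * 1 :=
            mul_le_mul_of_nonneg_left (hρ1 g 1 0) (norm_nonneg _)
        _ < 1 := by rw [mul_one]; exact h01.trans_lt hs1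
    have h2 : (1 : ℝ) ≤ ‖ρ g 0 0 * ρ g 1 1‖ := by
      by_contra hlt
      push Not at hlt
      have h3 : ‖ρ g 0 0 * ρ g 1 1 - ρ g 0 1 * ρ g 1 0‖ < 1 := by
        rw [sub_eq_add_neg]
        exact LFT_add' hlt (by rwa [norm_neg])
      linarith
    rw [norm_mul] at h2
    have h3 : ‖ρ g 0 0‖ * ‖ρ g 1 1‖ ≤ ‖ρ g 0 0‖ * 1 :=
      mul_le_mul_of_nonneg_left (hρ1 g 1 1) (norm_nonneg _)
    exact le_antisymm (hρ1 g 0 0) (by linarith)
  have hc0 : ρ g 0 0 ≠ 0 := SHF_ne hc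
  set c := ρ g 0 0 with hcd
  set Y : Matrix (Fin 2) (Fin 2) F := c⁻¹ • ρ g - 1 with hYd
  have hY00 : Y 0 0 = 0 := by
    rw [hYd, Matrix.sub_apply, Matrix.smul_apply, Matrix.one_apply_eq, smul_eq_mul, ← hcd,
      inv_mul_cancel₀ hc0, sub_self]
  have hY01 : Y 0 1 = c⁻¹ * ρ g 0 1 := by
    rw [hYd, Matrix.sub_apply, Matrix.smul_apply, Matrix.one_apply_ne (by decide), smul_eq_mul,
      sub_zero]
  have hY10 : Y 1 0 = c⁻¹ * ρ g 1 0 := by
    rw [hYd, Matrix.sub_apply, Matrix.smul_apply, Matrix.one_apply_ne (by decide), smul_eq_mul,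
      sub_zero]
  have hY11 : Y 1 1 = -(c⁻¹ * (c - ρ g 1 1)) := by
    rw [hYd, Matrix.sub_apply, Matrix.smul_apply, Matrix.one_apply_eq, smul_eq_mul, mul_sub,
      inv_mul_cancel₀ hc0]
    ring
  have hn01 : ‖Y 0 1‖ = ‖ρ g 0 1‖ := by rw [hY01, norm_mul, norm_inv, hc, inv_one, one_mul]
  have hn10 : ‖Y 1 0‖ = ‖ρ g 1 0‖ := by rw [hY10, norm_mul, norm_inv, hc, inv_one, one_mul]
  have hn11 : ‖Y 1 1‖ = ‖c - ρ g 1 1‖ := by
    rw [hY11, norm_neg, norm_mul, norm_inv, hc, inv_one, one_mul]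
  have hY : ∀ a b, ‖Y a b‖ ≤ s := by
    intro a b
    fin_cases a <;> fin_cases b
    · show ‖Y 0 0‖ ≤ s
      rw [hY00, norm_zero]
      exact hs0.le
    · show ‖Y 0 1‖ ≤ s
      rw [hn01]
      exact h01
    · show ‖Y 1 0‖ ≤ s
      rw [hn10]
      exact h10
    · show ‖Y 1 1‖ ≤ s
      rw [hn11]
      exact hdd
  set t : κ := -(((σ⁻¹ • Y).map red).trace / 2) with htd
  refine ⟨(σ⁻¹ • Y).map red + t • 1, ⟨?_, c, Y, t, hc, ?_, hY, rfl⟩, ?_⟩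
  · rw [Matrix.trace_add, Matrix.trace_smul, Matrix.trace_one, htd]
    simp only [Fintype.card_fin, smul_eq_mul]
    push_cast
    field_simp
    ring
  · rw [hYd, add_sub_cancel, smul_smul, mul_inv_cancel₀ hc0, one_smul]
  · intro h0
    have hback : ∀ w : F, ‖w‖ ≤ s → red (σ⁻¹ * w) = 0 → ‖w‖ < s := by
      intro w hw hr
      have h1 : ‖σ⁻¹ * w‖ ≤ 1 := by
        rw [norm_mul, norm_inv, hσ]
        calc s⁻¹ * ‖w‖ ≤ s⁻¹ * s := mul_le_mul_of_nonneg_left hw (inv_nonneg.mpr hs0.le)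
          _ = 1 := inv_mul_cancel₀ hs0.ne'
      have h2 := (h.zero_iff _ h1).mp hr
      rw [norm_mul, norm_inv, hσ] at h2
      have h3 : s * (s⁻¹ * ‖w‖) < s * 1 := mul_lt_mul_of_pos_left h2 hs0
      rwa [← mul_assoc, mul_inv_cancel₀ hs0.ne', one_mul, mul_one] at h3
    have e01 : red (σ⁻¹ * Y 0 1) = 0 := by
      have := congrFun (congrFun h0 0) 1
      simpa using this
    have e10 : red (σ⁻¹ * Y 1 0) = 0 := by
      have := congrFun (congrFun h0 1) 0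
      simpa using this
    have e00 : t = 0 := by
      have := congrFun (congrFun h0 0) 0
      simpa [hY00, LFT_red_zero h] using this
    have e11 : red (σ⁻¹ * Y 1 1) = 0 := by
      have := congrFun (congrFun h0 1) 1
      simpa [e00] using this
    have k01 := hback _ (hY 0 1) e01
    have k10 := hback _ (hY 1 0) e10
    have k11 := hback _ (hY 1 1) e11
    rw [hn01] at k01
    rw [hn10] at k10
    rw [hn11] at k11
    have : nu (ρ g) < s := max_lt (max_lt k01 k10) k11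
    exact absurd hg this.ne

lemma SHF_fin (h2κ : (2 : κ) ≠ 0) (h : IsRed red) {d : ℝ} {π : F} (hd0 : 0 < d) (hd1 : d < 1)
    (hπ : ‖π‖ = d) (hρ1 : ∀ g a b, ‖ρ g a b‖ ≤ 1) (hfin : (red '' {x | ‖x‖ ≤ 1}).Finite)
    (Z : Subgroup Γ) : Finite (LFT_sub_lt ρ h hd0 hd1 hπ hρ1 Z) := by
  have hsub : ((LFT_sub_lt ρ h hd0 hd1 hπ hρ1 Z : AddSubgroup (Matrix (Fin 2) (Fin 2) κ)) :
      Set (Matrix (Fin 2) (Fin 2) κ)) ⊆
      (fun q : κ × κ × κ × κ => !![(q.1 - q.2.2.2) / 2, q.2.1; q.2.2.1, (q.2.2.2 - q.1) / 2]) ''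
        ((red '' {x | ‖x‖ ≤ 1}) ×ˢ (red '' {x | ‖x‖ ≤ 1}) ×ˢ (red '' {x | ‖x‖ ≤ 1}) ×ˢ
          (red '' {x | ‖x‖ ≤ 1})) := by
    rintro X ⟨x, _, tX, c, Y, u, hc, hρx, hY, hX⟩
    have hP : ∀ a b, ‖(π⁻¹ • Y) a b‖ ≤ 1 := LFT_pi hd0 hπ (by simpa using hY)
    set P := π⁻¹ • Y with hPd
    refine ⟨(red (P 0 0), red (P 0 1), red (P 1 0), red (P 1 1)),
      ⟨⟨_, hP 0 0, rfl⟩, ⟨_, hP 0 1, rfl⟩, ⟨_, hP 1 0, rfl⟩, ⟨_, hP 1 1, rfl⟩⟩, ?_⟩
    have h00 : X 0 0 = red (P 0 0) + u := by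
      rw [hX]
      simp
    have h01 : X 0 1 = red (P 0 1) := by
      rw [hX]
      simp
    have h10 : X 1 0 = red (P 1 0) := by
      rw [hX]
      simp
    have h11 : X 1 1 = red (P 1 1) + u := by
      rw [hX]
      simp
    have ht : X 0 0 + X 1 1 = 0 := by
      rw [← tX, Matrix.trace_fin_two]
    ext i j
    fin_cases i <;> fin_cases j
    · show (red (P 0 0) - red (P 1 1)) / 2 = X 0 0
      rw [div_eq_iff h2κ]
      linear_combination (-1 : κ) * h00 + h11 - ht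
    · show red (P 0 1) = X 0 1
      exact h01.symm
    · show red (P 1 0) = X 1 0
      exact h10.symm
    · show (red (P 1 1) - red (P 0 0)) / 2 = X 1 1
      rw [div_eq_iff h2κ]
      linear_combination h00 - h11 - ht
  exact ((hfin.prod (hfin.prod (hfin.prod hfin))).image _).subset hsub

end

theorem SHF (hGSL : GSL_stmt) : SHF_stmt := by
  intro p d _ hp2 Γ F κ _ _ _ _ _ _ _ red hred ρ hint S hS hPSL hfin π σ r s hr0 hr1 hπ hs0 hs1
    hσ Z hZ hz hrs0 hrs1 hπσ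
  obtain ⟨z₀, hz₀, hnu⟩ := hz
  have h2κ : (2 : κ) ≠ 0 := SHF_two hp2
  obtain ⟨γ, γ', hγ1, hγ2, ⟨z1, _, c1, hc1⟩, ⟨z2, _, c2, hc2⟩⟩ := hPSL
  have hmu : mu κ * !![1, -1; 0, 1] = 1 := by
    ext i j
    fin_cases i <;> fin_cases j <;> simp [mu]
  have hmw : mw κ * !![1, 0; -1, 1] = 1 := by
    ext i j
    fin_cases i <;> fin_cases j <;> simp [mw]
  have hcj : ∀ X : Matrix (Fin 2) (Fin 2) κ, γ * (γ' * X * γ) * γ' = X := by
    intro X
    calc γ * (γ' * X * γ) * γ' = γ * γ' * X * (γ * γ') := by simp only [Matrix.mul_assoc]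
      _ = _ := by rw [hγ1, Matrix.one_mul, Matrix.mul_one]
  -- GSL for the conjugates of the groups of leading terms
  have key : ∀ (t : ℝ) (ht0 : 0 < t) (ht1 : t < 1) (ϖ : F) (hϖ : ‖ϖ‖ = t) (Z' : Subgroup Γ),
      Z'.Normal → ∀ h b c : κ,
      !![h, b; c, -h] ∈ (LFT_sub_lt ρ hred ht0 ht1 hϖ hint Z').comap (LFT_cj γ γ') ↔
      !![0, h; 0, 0] ∈ (LFT_sub_lt ρ hred ht0 ht1 hϖ hint Z').comap (LFT_cj γ γ') ∧
      !![0, b; 0, 0] ∈ (LFT_sub_lt ρ hred ht0 ht1 hϖ hint Z').comap (LFT_cj γ γ') ∧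
      !![0, c; 0, 0] ∈ (LFT_sub_lt ρ hred ht0 ht1 hϖ hint Z').comap (LFT_cj γ γ') := by
    intro t ht0 ht1 ϖ hϖ Z' hZ'
    refine hGSL p hp2 κ _ ?_ ?_ ?_
    · rintro X ⟨x, _, hx⟩
      have h1 : (γ * X * γ').trace = 0 := hx.1
      rwa [Matrix.trace_mul_comm, ← Matrix.mul_assoc, hγ2, Matrix.one_mul] at h1
    · intro X hX
      exact SHF_stable hred ht0 hϖ hint hS Z' hZ' hγ1 hγ2 hmu z1 c1 hc1 X hX
    · intro X hX
      exact SHF_stable hred ht0 hϖ hint hS Z' hZ' hγ1 hγ2 hmw z2 c2 hc2 X hX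
  -- an element `μ`
  obtain ⟨X₀, hX₀, hX₀0⟩ := SHF_lead h2κ hred hs0 hs1 hσ hint z₀ hnu
  have hmem : γ' * X₀ * γ ∈ (LFT_sub_lt ρ hred hs0 hs1 hσ hint Z).comap (LFT_cj γ γ') := by
    refine ⟨z₀, hz₀, ?_⟩
    show LFT_LT ρ red s σ z₀ (γ * (γ' * X₀ * γ) * γ')
    rw [hcj]
    exact hX₀
  have htr : (γ' * X₀ * γ).trace = 0 := by
    rw [Matrix.trace_mul_comm, ← Matrix.mul_assoc, hγ1, Matrix.one_mul]
    exact hX₀.1
  set X₁ := γ' * X₀ * γ with hX₁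
  have hX₁0 : X₁ ≠ 0 := by
    intro h0
    apply hX₀0
    rw [← hcj X₀, ← hX₁, h0, Matrix.mul_zero, Matrix.zero_mul]
  have hform : ∀ X : Matrix (Fin 2) (Fin 2) κ, X.trace = 0 → X = !![X 0 0, X 0 1; X 1 0, -X 0 0] := by
    intro X hX
    rw [Matrix.trace_fin_two] at hX
    ext i j
    fin_cases i <;> fin_cases j
    · rfl
    · rfl
    · rfl
    · show X 1 1 = -X 0 0
      linear_combination hX
  obtain ⟨μ, hμ0, hμ⟩ : ∃ μ : κ, μ ≠ 0 ∧
      !![0, μ; 0, 0] ∈ (LFT_sub_lt ρ hred hs0 hs1 hσ hint Z).comap (LFT_cj γ γ') := by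
    rw [hform X₁ htr] at hmem
    obtain ⟨m1, m2, m3⟩ := (key s hs0 hs1 σ hσ Z hZ _ _ _).1 hmem
    by_contra hno
    push Not at hno
    apply hX₁0
    have a1 : X₁ 0 0 = 0 := by
      by_contra hne
      exact hno _ hne m1
    have a2 : X₁ 0 1 = 0 := by
      by_contra hne
      exact hno _ hne m2
    have a3 : X₁ 1 0 = 0 := by
      by_contra hne
      exact hno _ hne m3
    rw [hform X₁ htr, a1, a2, a3]
    ext i j
    fin_cases i <;> fin_cases j <;> simp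
  -- the shift
  have hshift : ∀ x : κ, !![0, x; 0, 0] ∈ (LFT_sub_lt ρ hred hr0 hr1 hπ hint ⊤).comap (LFT_cj γ γ') →
      !![0, 2 * μ * x; 0, 0] ∈ (LFT_sub_lt ρ hred hrs0 hrs1 hπσ hint Z).comap (LFT_cj γ γ') := by
    intro x hx
    have hz0 : !![0, 0; 0, 0] ∈ (LFT_sub_lt ρ hred hr0 hr1 hπ hint ⊤).comap (LFT_cj γ γ') := by
      have h1 : (!![0, 0; 0, 0] : Matrix (Fin 2) (Fin 2) κ) = 0 := by
        ext i j
        fin_cases i <;> fin_cases j <;> simp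
      rw [h1]
      exact AddSubgroup.zero_mem _
    have h1 := (key r hr0 hr1 π hπ ⊤ inferInstance x 0 0).2 ⟨hx, hz0, hz0⟩
    obtain ⟨g, _, hg⟩ := h1
    obtain ⟨z, hzZ, hz⟩ := hμ
    refine ⟨g * z * g⁻¹ * z⁻¹, Z.mul_mem (hZ.conj_mem z hzZ g) (Z.inv_mem hzZ), ?_⟩
    have h2 := SHF_commut hred hr0 hr1 hπ hs0 hs1 hσ hint hg hz
    have h3 : LFT_cj γ γ' !![x, 0; 0, -x] * LFT_cj γ γ' !![0, μ; 0, 0] -
        LFT_cj γ γ' !![0, μ; 0, 0] * LFT_cj γ γ' !![x, 0; 0, -x] =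
        LFT_cj γ γ' !![0, 2 * μ * x; 0, 0] := by
      show γ * !![x, 0; 0, -x] * γ' * (γ * !![0, μ; 0, 0] * γ') -
        γ * !![0, μ; 0, 0] * γ' * (γ * !![x, 0; 0, -x] * γ') = γ * !![0, 2 * μ * x; 0, 0] * γ'
      have e1 : ∀ A B : Matrix (Fin 2) (Fin 2) κ, γ * A * γ' * (γ * B * γ') = γ * (A * B) * γ' := by
        intro A B
        calc γ * A * γ' * (γ * B * γ') = γ * (A * (γ' * γ) * B) * γ' := by
              simp only [Matrix.mul_assoc]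
          _ = γ * (A * B) * γ' := by rw [hγ2, Matrix.mul_one]
      rw [e1, e1, ← Matrix.sub_mul, ← Matrix.mul_sub]
      congr 2
      ext i j
      fin_cases i <;> fin_cases j <;> simp [Matrix.mul_apply, Fin.sum_univ_two]
      ring
    rw [h3] at h2
    exact h2
  have hmap : ∀ X ∈ LFT_sub_lt ρ hred hr0 hr1 hπ hint ⊤,
      (2 * μ) • X ∈ LFT_sub_lt ρ hred hrs0 hrs1 hπσ hint Z := by
    intro X hX
    have hX1 : γ' * X * γ ∈ (LFT_sub_lt ρ hred hr0 hr1 hπ hint ⊤).comap (LFT_cj γ γ') := by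
      show γ * (γ' * X * γ) * γ' ∈ LFT_sub_lt ρ hred hr0 hr1 hπ hint ⊤
      rw [hcj]
      exact hX
    have htrX : (γ' * X * γ).trace = 0 := by
      obtain ⟨x, _, hx⟩ := hX
      rw [Matrix.trace_mul_comm, ← Matrix.mul_assoc, hγ1, Matrix.one_mul]
      exact hx.1
    rw [hform _ htrX] at hX1
    obtain ⟨m1, m2, m3⟩ := (key r hr0 hr1 π hπ ⊤ inferInstance _ _ _).1 hX1
    have h1 := (key (r * s) hrs0 hrs1 (π * σ) hπσ Z hZ _ _ _).2 ⟨hshift _ m1, hshift _ m2, hshift _ m3⟩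
    have h2 : (!![2 * μ * (γ' * X * γ) 0 0, 2 * μ * (γ' * X * γ) 0 1;
        2 * μ * (γ' * X * γ) 1 0, -(2 * μ * (γ' * X * γ) 0 0)] : Matrix (Fin 2) (Fin 2) κ) =
        (2 * μ) • (γ' * X * γ) := by
      rw [hform _ htrX]
      ext i j
      fin_cases i <;> fin_cases j <;> simp
    rw [h2] at h1
    have h3 : γ * ((2 * μ) • (γ' * X * γ)) * γ' = (2 * μ) • X := by
      rw [Matrix.mul_smul, Matrix.smul_mul, hcj]
    have h4 : γ * ((2 * μ) • (γ' * X * γ)) * γ' ∈ LFT_sub_lt ρ hred hrs0 hrs1 hπσ hint Z := h1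
    rwa [h3] at h4
  have hfinite := SHF_fin h2κ hred hrs0 hrs1 hπσ hint hfin Z
  refine Nat.card_le_card_of_injective
    (fun X : LFT_sub_lt ρ hred hr0 hr1 hπ hint ⊤ =>
      (⟨(2 * μ) • (X : Matrix (Fin 2) (Fin 2) κ), hmap X.1 X.2⟩ :
        LFT_sub_lt ρ hred hrs0 hrs1 hπσ hint Z)) ?_
  intro X X' hXX
  have h1 : (2 * μ) • (X : Matrix (Fin 2) (Fin 2) κ) = (2 * μ) • (X' : Matrix (Fin 2) (Fin 2) κ) :=
    congrArg Subtype.val hXX
  apply Subtype.ext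
  exact smul_right_injective _ (mul_ne_zero h2κ hμ0) h1

end Pool.Agent.PU
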